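import Pool.Agent.Helper1.TE.Goals3

/-!
# PROJECT TE (MP_8b4d68_lc), packet DT
-/

set_option autoImplicit false

namespace Pool.Agent.Helper57.TE

open Pool.Agent.Helper1.TE

theorem gDT : GoalDT := by
  intro k M w K c e x h1 h2
  induction h2 with
  | refl => exact Or.inl ⟨Relation.ReflTransGen.refl, h1⟩
  | tail hcy hyz ih =>
    rename_i y z
    rcases ih with ⟨a1, a2⟩ | a
    · rcases Relation.ReflTransGen.cases_head a2 with h | ⟨y', b1, b2⟩
      · subst h
        exact Or.inr (Relation.ReflTransGen.single hyz)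
      · have hz : z = y' := (b1.1 z).1 hyz
        subst hz
        exact Or.inl ⟨a1.tail b1, b2⟩
    · exact Or.inr (a.tail hyz)

end Pool.Agent.Helper57.TE
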